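import Mathlib

/-!
# Engel groups acting on complete linear orders

Let `G` be a group acting by order automorphisms on a complete linear order `X`, and suppose that
`G` satisfies the law `g_m = y⁻¹`, where `g_0 = x`, `g_{k+1} = g_k⁻¹ y⁻¹ g_k` (this follows from the
`m`-Engel law).  We prove: if `u`, `v` both have fixed points in an open interval whose end points
are fixed by both, then they have a common fixed point in it (`common_fixed`).
-/

namespace Pool.Agent.Lib.MP_7ac902_al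

open Filter

/-- The Engel-type law used in the dynamical argument. -/
def Law (G : Type*) [Group G] (m : ℕ) : Prop :=
  ∀ x y : G, (fun z : G => z⁻¹ * y⁻¹ * z)^[m] x = y⁻¹

theorem law_of_engel {G : Type*} [Group G] {n : ℕ}
    (h : ∀ x y : G, (fun z : G => z⁻¹ * y⁻¹ * z * y)^[n] x = 1) : Law G (n + 1) := by
  intro x y
  have key : ∀ k : ℕ, (fun z : G => z⁻¹ * y⁻¹ * z * y)^[k + 1] x =
      (y ^ k)⁻¹ * (fun z : G => z⁻¹ * y⁻¹ * z)^[k + 1] x * y ^ (k + 1) := by
    intro k
    induction k with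
    | zero => simp
    | succ k ih =>
      rw [Function.iterate_succ_apply', ih, Function.iterate_succ_apply' (n := k + 1)]
      simp only [pow_succ]
      group
  have h1 : (fun z : G => z⁻¹ * y⁻¹ * z * y)^[n + 1] x = 1 := by
    rw [Function.iterate_succ_apply', h x y]
    group
  have h2 := key n
  rw [h1] at h2
  have h3 : (fun z : G => z⁻¹ * y⁻¹ * z)^[n + 1] x = y ^ n * (y ^ (n + 1))⁻¹ := by
    have : (fun z : G => z⁻¹ * y⁻¹ * z)^[n + 1] x =
      y ^ n * ((y ^ n)⁻¹ * (fun z : G => z⁻¹ * y⁻¹ * z)^[n + 1] x * y ^ (n + 1)) *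
        (y ^ (n + 1))⁻¹ := by group
    rw [this, ← h2]
    group
  rw [h3, pow_succ]
  group

section
variable {G : Type*} [Group G] {X : Type*} [CompleteLinearOrder X] [MulAction G X]

/-- The action is by order automorphisms. -/
def OrdAct (G : Type*) [Group G] (X : Type*) [CompleteLinearOrder X] [MulAction G X] : Prop :=
  ∀ (g : G) (s t : X), s < t → g • s < g • t

variable (hm : OrdAct G X)
include hm

theorem lt_iff (g : G) {s t : X} : g • s < g • t ↔ s < t := by
  constructor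
  · intro h
    have := hm g⁻¹ _ _ h
    rwa [inv_smul_smul, inv_smul_smul] at this
  · exact hm g s t

theorem le_iff (g : G) {s t : X} : g • s ≤ g • t ↔ s ≤ t := by
  rw [← not_lt, ← not_lt, lt_iff hm]

theorem lt_inv_iff (g : G) {s t : X} : s < g⁻¹ • t ↔ g • s < t := by
  rw [← lt_iff hm g (s := s), smul_inv_smul]

theorem inv_lt_iff (g : G) {s t : X} : g⁻¹ • s < t ↔ s < g • t := by
  rw [← lt_iff hm g (t := t), smul_inv_smul]

omit [CompleteLinearOrder X] hm in
theorem inv_fix {g : G} {s : X} : g⁻¹ • s = s ↔ g • s = s := by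
  constructor
  · intro h
    conv_lhs => rw [← h]
    rw [smul_inv_smul]
  · intro h
    conv_lhs => rw [← h]
    rw [inv_smul_smul]

/-- A supremum of fixed points is fixed. -/
theorem sSup_fixed (g : G) (S : Set X) (h : ∀ s ∈ S, g • s = s) : g • sSup S = sSup S := by
  apply le_antisymm
  · rw [← le_iff hm g⁻¹, inv_smul_smul]
    apply sSup_le
    intro s hs
    have : g⁻¹ • s = s := inv_fix.2 (h s hs)
    rw [← this, le_iff hm]
    exact le_sSup hs
  · apply sSup_le
    intro s hs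
    rw [← h s hs, le_iff hm]
    exact le_sSup hs

/-- An infimum of fixed points is fixed. -/
theorem sInf_fixed (g : G) (S : Set X) (h : ∀ s ∈ S, g • s = s) : g • sInf S = sInf S := by
  apply le_antisymm
  · apply le_sInf
    intro s hs
    rw [← h s hs, le_iff hm]
    exact sInf_le hs
  · rw [← le_iff hm g⁻¹, inv_smul_smul]
    apply le_sInf
    intro s hs
    have : g⁻¹ • s = s := inv_fix.2 (h s hs)
    rw [← this, le_iff hm]
    exact sInf_le hs

theorem bot_fixed (g : G) : g • (⊥ : X) = ⊥ := by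
  have := sSup_fixed hm g ∅ (by simp)
  simpa using this

theorem top_fixed (g : G) : g • (⊤ : X) = ⊤ := by
  have := sInf_fixed hm g ∅ (by simp)
  simpa using this

omit [CompleteLinearOrder X] hm in
theorem pow_fix {g : G} {s : X} (h : g • s = s) (k : ℕ) : g ^ k • s = s := by
  induction k with
  | zero => simp
  | succ k ih => rw [pow_succ, mul_smul, h, ih]

/-- The supremum of a forward orbit is a fixed point. -/
theorem iSup_orbit (g : G) (t : X) (h : t ≤ g • t) : g • (⨆ k : ℕ, g ^ k • t) = ⨆ k : ℕ, g ^ k • t := by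
  apply le_antisymm
  · rw [← le_iff hm g⁻¹, inv_smul_smul]
    apply iSup_le
    intro k
    rw [← le_iff hm g, smul_inv_smul, ← mul_smul, ← pow_succ']
    exact le_iSup (fun k : ℕ => g ^ k • t) (k + 1)
  · apply iSup_le
    intro k
    have h1 : g ^ k • t ≤ g ^ (k + 1) • t := by
      rw [pow_succ, mul_smul, le_iff hm]
      exact h
    refine h1.trans ?_
    rw [pow_succ', mul_smul, le_iff hm]
    exact le_iSup (fun k : ℕ => g ^ k • t) k

/-- The infimum of a forward orbit is a fixed point. -/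
theorem iInf_orbit (g : G) (t : X) (h : g • t ≤ t) : g • (⨅ k : ℕ, g ^ k • t) = ⨅ k : ℕ, g ^ k • t := by
  apply le_antisymm
  · apply le_iInf
    intro k
    have h1 : g ^ (k + 1) • t ≤ g ^ k • t := by
      rw [pow_succ, mul_smul, le_iff hm]
      exact h
    refine le_trans ?_ h1
    rw [pow_succ', mul_smul, le_iff hm]
    exact iInf_le (fun k : ℕ => g ^ k • t) k
  · rw [← le_iff hm g⁻¹, inv_smul_smul]
    apply le_iInf
    intro k
    rw [← le_iff hm g, smul_inv_smul, ← mul_smul, ← pow_succ']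
    exact iInf_le (fun k : ℕ => g ^ k • t) (k + 1)

/-- An automorphism without fixed points in `(a, j)` moves all its points in one direction. -/
theorem sign_aux (g : G) {a j s t : X} (hs : a < s) (ht : t < j) (hst : s < t)
    (hno : ∀ r, a < r → r < j → g • r ≠ r) (h1 : s < g • s) (h2 : g • t < t) : False := by
  have hfix := iSup_orbit hm g s h1.le
  have hle : (⨆ k : ℕ, g ^ k • s) ≤ t := by
    apply iSup_le
    intro k
    have h3 : ∀ k : ℕ, g ^ k • t ≤ t := by
      intro k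
      induction k with
      | zero => simp
      | succ k ih =>
        rw [pow_succ', mul_smul]
        exact ((le_iff hm g).2 ih).trans h2.le
    exact ((le_iff hm _).2 hst.le).trans (h3 k)
  have hge : s ≤ ⨆ k : ℕ, g ^ k • s := by
    have := le_iSup (fun k : ℕ => g ^ k • s) 0
    simpa using this
  exact hno _ (lt_of_lt_of_le hs hge) (lt_of_le_of_lt hle ht) hfix

/-- An automorphism without fixed points in `(a, j)` moves all its points in one direction. -/
theorem sign_const (g : G) {a j : X} (hno : ∀ r, a < r → r < j → g • r ≠ r) :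
    (∀ r, a < r → r < j → r < g • r) ∨ (∀ r, a < r → r < j → r < g⁻¹ • r) := by
  by_contra hcon
  push Not at hcon
  obtain ⟨⟨t, hat, htj, ht⟩, ⟨s, has, hsj, hs⟩⟩ := hcon
  have ht' : g • t < t := lt_of_le_of_ne ht (hno t hat htj)
  have hs' : s < g • s := by
    have h1 : g⁻¹ • s < s := by
      refine lt_of_le_of_ne hs ?_
      intro h
      exact hno s has hsj (inv_fix.1 h)
    rwa [inv_lt_iff hm] at h1
  rcases lt_trichotomy s t with h | h | h
  · exact sign_aux hm g has htj h hno hs' ht'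
  · subst h
    exact lt_asymm hs' ht'
  · refine sign_aux hm g⁻¹ hat hsj h ?_ ?_ ?_
    · intro r h1 h2 h3
      exact hno r h1 h2 (inv_fix.1 h3)
    · rwa [lt_inv_iff hm]
    · rwa [inv_lt_iff hm]

variable {m : ℕ} (hlaw : Law G m)
include hlaw

/-- Core of the cofinality lemma (right side). -/
theorem core_right (x y : G) {a j : X} (ha : y • a = a) (hx : x • j = j)
    (hy : y • j = j) (hxa : a < x • a) (haj : a < j) (hy' : ∀ r, a < r → r < j → r < y⁻¹ • r) :
    False := by
  have key : ∀ k : ℕ, a < (fun z : G => z⁻¹ * y⁻¹ * z)^[k] x • a ∧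
      (fun z : G => z⁻¹ * y⁻¹ * z)^[k] x • j = j := by
    intro k
    induction k with
    | zero => exact ⟨hxa, hx⟩
    | succ k ih =>
      rw [Function.iterate_succ_apply']
      obtain ⟨ih1, ih2⟩ := ih
      set g := (fun z : G => z⁻¹ * y⁻¹ * z)^[k] x with hg
      have hgj : g • a < j := by
        rw [← ih2, lt_iff hm]
        exact haj
      constructor
      · change a < (g⁻¹ * y⁻¹ * g) • a
        rw [mul_smul, mul_smul, lt_inv_iff hm]
        exact hy' _ ih1 hgj
      · change (g⁻¹ * y⁻¹ * g) • j = j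
        rw [mul_smul, mul_smul, ih2, inv_fix.2 hy, inv_fix.2 ih2]
  have h1 := (key m).1
  rw [hlaw x y, inv_fix.2 ha] at h1
  exact lt_irrefl _ h1

/-- Cofinality lemma (right side): if `a` is fixed by `y`, `j > a` is fixed by `x` and `y` and `y`
has no fixed point in `(a, j)` then `x` fixes `a`. -/
theorem cof_right (x y : G) {a j : X} (ha : y • a = a) (hx : x • j = j)
    (hy : y • j = j) (haj : a < j) (hno : ∀ r, a < r → r < j → y • r ≠ r) : x • a = a := by
  by_contra hne
  -- a statement for all pairs with `a < x • a`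
  have main : ∀ x : G, x • j = j → a < x • a → False := by
    intro x hx hxa
    rcases sign_const hm y hno with h | h
    · exact core_right hm hlaw x y⁻¹ (inv_fix.2 ha) hx (inv_fix.2 hy) hxa haj
        (by simpa using h)
    · exact core_right hm hlaw x y ha hx hy hxa haj h
  rcases lt_or_gt_of_ne hne with h | h
  · refine main x⁻¹ (inv_fix.2 hx) ?_
    rwa [lt_inv_iff hm]
  · exact main x hx h

/-- Core of the cofinality lemma (left side). -/
theorem core_left (x y : G) {a j : X} (ha : y • a = a) (hx : x • j = j)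
    (hy : y • j = j) (hxa : x • a < a) (haj : j < a) (hy' : ∀ r, j < r → r < a → y⁻¹ • r < r) :
    False := by
  have key : ∀ k : ℕ, (fun z : G => z⁻¹ * y⁻¹ * z)^[k] x • a < a ∧
      (fun z : G => z⁻¹ * y⁻¹ * z)^[k] x • j = j := by
    intro k
    induction k with
    | zero => exact ⟨hxa, hx⟩
    | succ k ih =>
      rw [Function.iterate_succ_apply']
      obtain ⟨ih1, ih2⟩ := ih
      set g := (fun z : G => z⁻¹ * y⁻¹ * z)^[k] x with hg
      have hgj : j < g • a := by
        rw [← ih2, lt_iff hm]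
        exact haj
      constructor
      · change (g⁻¹ * y⁻¹ * g) • a < a
        rw [mul_smul, mul_smul, inv_lt_iff hm]
        exact hy' _ hgj ih1
      · change (g⁻¹ * y⁻¹ * g) • j = j
        rw [mul_smul, mul_smul, ih2, inv_fix.2 hy, inv_fix.2 ih2]
  have h1 := (key m).1
  rw [hlaw x y, inv_fix.2 ha] at h1
  exact lt_irrefl _ h1

/-- Cofinality lemma (left side). -/
theorem cof_left (x y : G) {a j : X} (ha : y • a = a) (hx : x • j = j)
    (hy : y • j = j) (haj : j < a) (hno : ∀ r, j < r → r < a → y • r ≠ r) : x • a = a := by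
  by_contra hne
  have main : ∀ x : G, x • j = j → x • a < a → False := by
    intro x hx hxa
    rcases sign_const hm y hno with h | h
    · refine core_left hm hlaw x y ha hx hy hxa haj ?_
      intro r h1 h2
      rw [inv_lt_iff hm]
      exact h r h1 h2
    · refine core_left hm hlaw x y⁻¹ (inv_fix.2 ha) hx (inv_fix.2 hy) hxa haj ?_
      intro r h1 h2
      rw [inv_inv]
      have := h r h1 h2
      rwa [lt_inv_iff hm] at this
  rcases lt_or_gt_of_ne hne with h | h
  · exact main x hx h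
  · refine main x⁻¹ (inv_fix.2 hx) ?_
    rwa [inv_lt_iff hm]


/-! ### Convergence -/

/-- Order convergence of a sequence. -/
def Conv (q : ℕ → X) (p : X) : Prop :=
  (∀ s, s < p → ∀ᶠ N in atTop, s < q N) ∧ (∀ s, p < s → ∀ᶠ N in atTop, q N < s)

omit hm hlaw [MulAction G X] [Group G] in
theorem conv_const_unique {e p : X} (h : Conv (fun _ => e) p) : e = p := by
  rcases lt_trichotomy e p with h1 | h1 | h1
  · obtain ⟨N, hN⟩ := (h.1 e h1).exists
    exact absurd hN (lt_irrefl _)
  · exact h1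
  · obtain ⟨N, hN⟩ := (h.2 e h1).exists
    exact absurd hN (lt_irrefl _)

omit hlaw in
/-- Moving right: `w ^ N • q N` converges to the next fixed point of `w`. -/
theorem conv_move_right (w : G) {p j : X} {q : ℕ → X} (hq : Conv q p) (hp : p < w • p)
    (hj : w • j = j) (hpj : p < j) :
    ∃ r, p < r ∧ r ≤ j ∧ w • r = r ∧ Conv (fun N => w ^ N • q N) r := by
  have hmono : ∀ k l : ℕ, k ≤ l → w ^ k • p ≤ w ^ l • p := by
    intro k l hkl
    induction hkl with
    | refl => exact le_rfl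
    | step _ ih =>
      refine ih.trans ?_
      rw [pow_succ, mul_smul, le_iff hm]
      exact hp.le
  refine ⟨⨆ k : ℕ, w ^ k • p, ?_, ?_, iSup_orbit hm w p hp.le, ?_, ?_⟩
  · refine lt_of_lt_of_le hp ?_
    simpa using le_iSup (fun k : ℕ => w ^ k • p) 1
  · apply iSup_le
    intro k
    rw [← pow_fix hj k, le_iff hm]
    exact hpj.le
  · intro s hs
    rw [lt_iSup_iff] at hs
    obtain ⟨k, hk⟩ := hs
    have h1 : w⁻¹ • p < p := by rwa [inv_lt_iff hm]
    filter_upwards [hq.1 _ h1, eventually_ge_atTop (k + 1)] with N hN hNk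
    refine lt_of_lt_of_le hk ?_
    have h2 : w ^ k • p ≤ w ^ (N - 1) • p := hmono k (N - 1) (by omega)
    refine h2.trans ?_
    have h3 : w ^ (N - 1) • p = w ^ N • (w⁻¹ • p) := by
      rw [← mul_smul]
      congr 1
      have : N = (N - 1) + 1 := by omega
      rw [this, pow_succ]
      simp
    rw [h3, le_iff hm]
    exact hN.le
  · intro s hs
    filter_upwards [hq.2 _ hp] with N hN
    refine lt_trans ?_ hs
    refine lt_of_lt_of_le ((lt_iff hm (w ^ N)).2 hN) ?_
    rw [← mul_smul, ← pow_succ]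
    exact le_iSup (fun k : ℕ => w ^ k • p) (N + 1)

omit hlaw in
/-- Moving left: `w ^ N • q N` converges to the previous fixed point of `w`. -/
theorem conv_move_left (w : G) {p j : X} {q : ℕ → X} (hq : Conv q p) (hp : w • p < p)
    (hj : w • j = j) (hpj : j < p) :
    ∃ r, r < p ∧ j ≤ r ∧ w • r = r ∧ Conv (fun N => w ^ N • q N) r := by
  have hmono : ∀ k l : ℕ, k ≤ l → w ^ l • p ≤ w ^ k • p := by
    intro k l hkl
    induction hkl with
    | refl => exact le_rfl
    | step _ ih =>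
      refine le_trans ?_ ih
      rw [pow_succ, mul_smul, le_iff hm]
      exact hp.le
  refine ⟨⨅ k : ℕ, w ^ k • p, ?_, ?_, iInf_orbit hm w p hp.le, ?_, ?_⟩
  · refine lt_of_le_of_lt ?_ hp
    simpa using iInf_le (fun k : ℕ => w ^ k • p) 1
  · apply le_iInf
    intro k
    rw [← pow_fix hj k, le_iff hm]
    exact hpj.le
  · intro s hs
    filter_upwards [hq.1 _ hp] with N hN
    refine lt_trans hs ?_
    refine lt_of_le_of_lt ?_ ((lt_iff hm (w ^ N)).2 hN)
    rw [← mul_smul, ← pow_succ]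
    exact iInf_le (fun k : ℕ => w ^ k • p) (N + 1)
  · intro s hs
    rw [iInf_lt_iff] at hs
    obtain ⟨k, hk⟩ := hs
    have h1 : p < w⁻¹ • p := by rwa [lt_inv_iff hm]
    filter_upwards [hq.2 _ h1, eventually_ge_atTop (k + 1)] with N hN hNk
    refine lt_of_le_of_lt ?_ hk
    have h2 : w ^ (N - 1) • p ≤ w ^ k • p := hmono k (N - 1) (by omega)
    refine le_trans ?_ h2
    have h3 : w ^ (N - 1) • p = w ^ N • (w⁻¹ • p) := by
      rw [← mul_smul]
      congr 1
      have : N = (N - 1) + 1 := by omega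
      rw [this, pow_succ]
      simp
    rw [h3, le_iff hm]
    exact hN.le

/-- Cofinality of the fixed points of `w` in an interval between consecutive common fixed points
of `w` and `w'`. -/
theorem cofinal (w w' : G) {j₁ j₂ : X} (h1 : w • j₁ = j₁) (h2 : w • j₂ = j₂)
    (h1' : w' • j₁ = j₁) (h2' : w' • j₂ = j₂)
    (hno : ∀ t, j₁ < t → t < j₂ → w • t = t → w' • t = t → False)
    (hex : ∃ e, j₁ < e ∧ e < j₂ ∧ w • e = e) :
    (∀ t, t < j₂ → ∃ s, t < s ∧ j₁ < s ∧ s < j₂ ∧ w • s = s) ∧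
    (∀ t, j₁ < t → ∃ s, s < t ∧ j₁ < s ∧ s < j₂ ∧ w • s = s) := by
  obtain ⟨e, he1, he2, he⟩ := hex
  constructor
  · set S : Set X := {s | j₁ < s ∧ s < j₂ ∧ w • s = s} with hS
    have hfix : w • sSup S = sSup S := sSup_fixed hm w S (fun s hs => hs.2.2)
    have hle : sSup S ≤ j₂ := sSup_le (fun s hs => hs.2.1.le)
    have hge : e ≤ sSup S := le_sSup ⟨he1, he2, he⟩
    have heq : sSup S = j₂ := by
      by_contra hne
      have hlt : sSup S < j₂ := lt_of_le_of_ne hle hne
      have hj1 : j₁ < sSup S := lt_of_lt_of_le he1 hge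
      refine hno _ hj1 hlt hfix ?_
      refine cof_right hm hlaw w' w hfix h2' h2 hlt ?_
      intro r hr1 hr2 hr
      exact absurd (le_sSup (show r ∈ S from ⟨hj1.trans hr1, hr2, hr⟩)) (not_le.2 hr1)
    intro t ht
    rw [← heq, lt_sSup_iff] at ht
    obtain ⟨s, hs, hts⟩ := ht
    exact ⟨s, hts, hs.1, hs.2.1, hs.2.2⟩
  · set S : Set X := {s | j₁ < s ∧ s < j₂ ∧ w • s = s} with hS
    have hfix : w • sInf S = sInf S := sInf_fixed hm w S (fun s hs => hs.2.2)
    have hle : j₁ ≤ sInf S := le_sInf (fun s hs => hs.1.le)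
    have hge : sInf S ≤ e := sInf_le ⟨he1, he2, he⟩
    have heq : sInf S = j₁ := by
      by_contra hne
      have hlt : j₁ < sInf S := lt_of_le_of_ne hle (Ne.symm hne)
      have hj1 : sInf S < j₂ := lt_of_le_of_lt hge he2
      refine hno _ hlt hj1 hfix ?_
      refine cof_left hm hlaw w' w hfix h1' h1 hlt ?_
      intro r hr1 hr2 hr
      exact absurd (sInf_le (show r ∈ S from ⟨hr1, hr2.trans hj1, hr⟩)) (not_le.2 hr2)
    intro t ht
    rw [← heq, sInf_lt_iff] at ht
    obtain ⟨s, hs, hts⟩ := ht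
    exact ⟨s, hts, hs.1, hs.2.1, hs.2.2⟩

omit hlaw in
/-- One step of the ping-pong. -/
theorem step (w : G) {j₁ j₂ : X}
    (hc1 : ∀ t, t < j₂ → ∃ s, t < s ∧ j₁ < s ∧ s < j₂ ∧ w • s = s)
    (hc2 : ∀ t, j₁ < t → ∃ s, s < t ∧ j₁ < s ∧ s < j₂ ∧ w • s = s)
    {p : X} (hp1 : j₁ < p) (hp2 : p < j₂) (hp : w • p ≠ p) {q : ℕ → X} (hq : Conv q p) :
    ∃ r, j₁ < r ∧ r < j₂ ∧ w • r = r ∧ Conv (fun N => w ^ N • q N) r := by
  rcases lt_or_gt_of_ne hp with h | h
  · obtain ⟨s, hs1, hs2, hs3, hs4⟩ := hc2 p hp1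
    obtain ⟨r, hr1, hr2, hr3, hr4⟩ := conv_move_left hm w hq h hs4 hs1
    exact ⟨r, lt_of_lt_of_le hs2 hr2, hr1.trans hp2, hr3, hr4⟩
  · obtain ⟨s, hs1, hs2, hs3, hs4⟩ := hc1 p hp2
    obtain ⟨r, hr1, hr2, hr3, hr4⟩ := conv_move_right hm w hq h hs4 hs1
    exact ⟨r, hp1.trans hr1, lt_of_le_of_lt hr2 hs3, hr3, hr4⟩

/-- **Ping-pong theorem.**  Let `j₁ < j₂` be common fixed points of `u` and `v`.  If both `u` and `v`
have fixed points in the open interval `(j₁, j₂)`, then they have a common fixed point in it. -/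
theorem common_fixed (u v : G) {j₁ j₂ : X} (hu1 : u • j₁ = j₁) (hu2 : u • j₂ = j₂)
    (hv1 : v • j₁ = j₁) (hv2 : v • j₂ = j₂)
    (hu : ∃ e, j₁ < e ∧ e < j₂ ∧ u • e = e) (hv : ∃ e, j₁ < e ∧ e < j₂ ∧ v • e = e) :
    ∃ e, j₁ < e ∧ e < j₂ ∧ u • e = e ∧ v • e = e := by
  by_contra hcon
  have hno : ∀ t, j₁ < t → t < j₂ → u • t = t → v • t = t → False := by
    intro t h1 h2 h3 h4
    exact hcon ⟨t, h1, h2, h3, h4⟩
  obtain ⟨cu1, cu2⟩ := cofinal hm hlaw u v hu1 hu2 hv1 hv2 hno hu
  obtain ⟨cv1, cv2⟩ := cofinal hm hlaw v u hv1 hv2 hu1 hu2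
    (fun t h1 h2 h3 h4 => hno t h1 h2 h4 h3) hv
  -- moving by powers of `u`, `u⁻¹`, `v`, `v⁻¹`
  have stepu : ∀ (p : X) (q : ℕ → X), j₁ < p → p < j₂ → v • p = p → Conv q p →
      (∃ r, j₁ < r ∧ r < j₂ ∧ u • r = r ∧ Conv (fun N => (u ^ N) • q N) r) ∧
      (∃ r, j₁ < r ∧ r < j₂ ∧ u • r = r ∧ Conv (fun N => (u ^ N)⁻¹ • q N) r) := by
    intro p q hp1 hp2 hp hq
    have hne : u • p ≠ p := fun h => hno p hp1 hp2 h hp
    constructor
    · exact step hm u cu1 cu2 hp1 hp2 hne hq
    · have hne' : u⁻¹ • p ≠ p := fun h => hne (inv_fix.1 h)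
      have := step hm u⁻¹ (j₁ := j₁) (j₂ := j₂) ?_ ?_ hp1 hp2 hne' hq
      · obtain ⟨r, h1, h2, h3, h4⟩ := this
        refine ⟨r, h1, h2, inv_fix.1 h3, ?_⟩
        simpa only [inv_pow] using h4
      · intro t ht
        obtain ⟨s, h1, h2, h3, h4⟩ := cu1 t ht
        exact ⟨s, h1, h2, h3, inv_fix.2 h4⟩
      · intro t ht
        obtain ⟨s, h1, h2, h3, h4⟩ := cu2 t ht
        exact ⟨s, h1, h2, h3, inv_fix.2 h4⟩
  have stepv : ∀ (p : X) (q : ℕ → X), j₁ < p → p < j₂ → u • p = p → Conv q p →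
      (∃ r, j₁ < r ∧ r < j₂ ∧ v • r = r ∧ Conv (fun N => (v ^ N) • q N) r) ∧
      (∃ r, j₁ < r ∧ r < j₂ ∧ v • r = r ∧ Conv (fun N => (v ^ N)⁻¹ • q N) r) := by
    intro p q hp1 hp2 hp hq
    have hne : v • p ≠ p := fun h => hno p hp1 hp2 hp h
    constructor
    · exact step hm v cv1 cv2 hp1 hp2 hne hq
    · have hne' : v⁻¹ • p ≠ p := fun h => hne (inv_fix.1 h)
      have := step hm v⁻¹ (j₁ := j₁) (j₂ := j₂) ?_ ?_ hp1 hp2 hne' hq
      · obtain ⟨r, h1, h2, h3, h4⟩ := this
        refine ⟨r, h1, h2, inv_fix.1 h3, ?_⟩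
        simpa only [inv_pow] using h4
      · intro t ht
        obtain ⟨s, h1, h2, h3, h4⟩ := cv1 t ht
        exact ⟨s, h1, h2, h3, inv_fix.2 h4⟩
      · intro t ht
        obtain ⟨s, h1, h2, h3, h4⟩ := cv2 t ht
        exact ⟨s, h1, h2, h3, inv_fix.2 h4⟩
  -- the inductive claim for the Engel words in `x = v ^ N`, `y = u ^ N`
  have key : ∀ k : ℕ, ∀ (p : X) (q : ℕ → X), j₁ < p → p < j₂ → u • p = p → Conv q p →
      (∃ r, j₁ < r ∧ r < j₂ ∧ v • r = r ∧
        Conv (fun N => ((fun z : G => z⁻¹ * (u ^ N)⁻¹ * z)^[k] (v ^ N)) • q N) r) ∧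
      (∃ r, j₁ < r ∧ r < j₂ ∧ v • r = r ∧
        Conv (fun N => ((fun z : G => z⁻¹ * (u ^ N)⁻¹ * z)^[k] (v ^ N))⁻¹ • q N) r) := by
    intro k
    induction k with
    | zero =>
      intro p q hp1 hp2 hp hq
      exact stepv p q hp1 hp2 hp hq
    | succ k ih =>
      intro p q hp1 hp2 hp hq
      obtain ⟨r, hr1, hr2, hr3, hr4⟩ := (ih p q hp1 hp2 hp hq).1
      obtain ⟨⟨s, hs1, hs2, hs3, hs4⟩, ⟨s', hs1', hs2', hs3', hs4'⟩⟩ := stepu r _ hr1 hr2 hr3 hr4
      constructor
      · obtain ⟨t, ht1, ht2, ht3, ht4⟩ := (ih s' _ hs1' hs2' hs3' hs4').2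
        refine ⟨t, ht1, ht2, ht3, ?_⟩
        simp only [Function.iterate_succ_apply', mul_smul]
        exact ht4
      · obtain ⟨t, ht1, ht2, ht3, ht4⟩ := (ih s _ hs1 hs2 hs3 hs4).2
        refine ⟨t, ht1, ht2, ht3, ?_⟩
        simp only [Function.iterate_succ_apply', mul_inv_rev, inv_inv, mul_smul]
        exact ht4
  obtain ⟨e, he1, he2, he⟩ := hu
  have hconst : Conv (fun _ : ℕ => e) e :=
    ⟨fun s hs => Eventually.of_forall (fun _ => hs), fun s hs => Eventually.of_forall (fun _ => hs)⟩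
  obtain ⟨r, hr1, hr2, hr3, hr4⟩ := (key m e _ he1 he2 he hconst).1
  have hfun : (fun N : ℕ => ((fun z : G => z⁻¹ * (u ^ N)⁻¹ * z)^[m] (v ^ N)) • e) =
      fun _ => e := by
    funext N
    rw [hlaw (v ^ N) (u ^ N), inv_fix]
    exact pow_fix he N
  rw [hfun] at hr4
  have her : e = r := conv_const_unique hr4
  exact hno e he1 he2 he (her ▸ hr3)

end

end Pool.Agent.Lib.MP_7ac902_al
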