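import Mathlib

/-!
# Hölder's theorem (non-commutative start) and homomorphisms onto `ℤ`
-/

namespace Pool.Agent.Lib.MP_7ac902_al

/-- Hölder: an Archimedean (bi-)ordered group is commutative. -/
theorem hoelder {Q : Type*} [Group Q] [LinearOrder Q]
    (hl : ∀ a b c : Q, a < b → c * a < c * b) (hr : ∀ a b c : Q, a < b → a * c < b * c)
    (harch : ∀ a b : Q, 1 < a → ∃ k : ℕ, b < a ^ k) (a b : Q) : a * b = b * a := by
  have hl' : ∀ a b c : Q, a ≤ b → c * a ≤ c * b := by
    intro a b c h
    rcases h.eq_or_lt with h | h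
    · rw [h]
    · exact (hl a b c h).le
  have hr' : ∀ a b c : Q, a ≤ b → a * c ≤ b * c := by
    intro a b c h
    rcases h.eq_or_lt with h | h
    · rw [h]
    · exact (hr a b c h).le
  have hmono : ∀ d : Q, 1 < d → StrictMono (fun n : ℤ => d ^ n) := by
    intro d hd
    refine strictMono_int_of_lt_succ fun n => ?_
    rw [zpow_add_one]
    have := hl 1 d (d ^ n) hd
    rwa [mul_one] at this
  have hfloor : ∀ d : Q, 1 < d → ∀ a : Q, ∃ m : ℤ, d ^ m ≤ a ∧ a < d ^ (m + 1) := by
    classical
    intro d hd a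
    have hbdd : ∃ b : ℤ, ∀ z : ℤ, d ^ z ≤ a → z ≤ b := by
      obtain ⟨k, hk⟩ := harch d a hd
      refine ⟨k, fun z hz => ?_⟩
      have h1 : d ^ z < d ^ (k : ℤ) := by
        rw [zpow_natCast]
        exact lt_of_le_of_lt hz hk
      exact ((hmono d hd).lt_iff_lt.1 h1).le
    have hinh : ∃ z : ℤ, d ^ z ≤ a := by
      obtain ⟨k, hk⟩ := harch d a⁻¹ hd
      refine ⟨-(k : ℤ), ?_⟩
      have h1 := hl _ _ a hk
      rw [mul_inv_cancel] at h1
      have h2 := hr _ _ (d ^ k)⁻¹ h1
      rw [mul_assoc, mul_inv_cancel, mul_one, one_mul] at h2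
      rw [zpow_neg, zpow_natCast]
      exact h2.le
    obtain ⟨m, hm1, hm2⟩ := Int.exists_greatest_of_bdd hbdd hinh
    refine ⟨m, hm1, ?_⟩
    by_contra hcon
    have := hm2 (m + 1) (not_lt.1 hcon)
    omega
  by_cases hmin : ∃ e : Q, 1 < e ∧ ∀ x : Q, 1 < x → e ≤ x
  · obtain ⟨e, he, hmin⟩ := hmin
    have hcyc : ∀ a : Q, ∃ m : ℤ, a = e ^ m := by
      intro a
      obtain ⟨m, hm1, hm2⟩ := hfloor e he a
      refine ⟨m, ?_⟩
      by_contra hne
      have hlt : e ^ m < a := lt_of_le_of_ne hm1 (Ne.symm hne)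
      have h1 := hl _ _ (e ^ m)⁻¹ hlt
      rw [inv_mul_cancel] at h1
      have h2 := hl' _ _ (e ^ m) (hmin _ h1)
      rw [mul_inv_cancel_left, ← zpow_add_one] at h2
      exact absurd hm2 (not_lt.2 h2)
    obtain ⟨m, rfl⟩ := hcyc a
    obtain ⟨k, rfl⟩ := hcyc b
    rw [← zpow_add, ← zpow_add, add_comm]
  · push Not at hmin
    have main : ∀ a b : Q, ¬ (b * a < a * b) := by
      intro a b hab
      set c := (b * a)⁻¹ * (a * b) with hc
      have hc1 : 1 < c := by
        have := hl _ _ (b * a)⁻¹ hab
        rwa [inv_mul_cancel] at this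
      have hd : ∃ d : Q, 1 < d ∧ d * d ≤ c := by
        obtain ⟨x, hx1, hx2⟩ := hmin c hc1
        by_cases hxx : x * x ≤ c
        · exact ⟨x, hx1, hxx⟩
        · refine ⟨c * x⁻¹, ?_, ?_⟩
          · have := hr _ _ x⁻¹ hx2
            rwa [mul_inv_cancel] at this
          · have h1 : c < x * x := not_le.1 hxx
            have h2 := hr _ _ x⁻¹ (hl _ _ x⁻¹ h1)
            have h3 : x⁻¹ * (x * x) * x⁻¹ = 1 := by group
            rw [h3] at h2
            have h4 := hl _ _ c h2
            rw [mul_one] at h4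
            refine le_trans (le_of_eq ?_) h4.le
            group
      obtain ⟨d, hd1, hd2⟩ := hd
      obtain ⟨m, hm1, hm2⟩ := hfloor d hd1 a
      obtain ⟨k, hk1, hk2⟩ := hfloor d hd1 b
      have h1 : a * b < d ^ (m + 1) * d ^ (k + 1) := (hr _ _ b hm2).trans (hl _ _ _ hk2)
      have h2 : d ^ k * d ^ m ≤ b * a := (hr' _ _ _ hk1).trans (hl' _ _ _ hm1)
      have h3 : a * b = (b * a) * c := by rw [hc]; group
      have h4 : (d ^ k * d ^ m) * (d * d) ≤ a * b := by
        rw [h3]
        exact (hr' _ _ _ h2).trans (hl' _ _ _ hd2)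
      have h5 : (d ^ k * d ^ m) * (d * d) = d ^ (m + 1) * d ^ (k + 1) := by
        rw [← zpow_add, ← zpow_add]
        have : d * d = d ^ (2 : ℤ) := by
          rw [zpow_ofNat, pow_two]
        rw [this, ← zpow_add]
        congr 1
        ring
      rw [h5] at h4
      exact absurd h1 (not_lt.2 h4)
    rcases lt_trichotomy (a * b) (b * a) with h | h | h
    · exact absurd h (main b a)
    · exact h
    · exact absurd h (main a b)

/-- Hölder's theorem in terms of a positive cone. -/
theorem hoelder_cone {Q : Type*} [Group Q] (P : Q → Prop) (tri : ∀ q, q = 1 ∨ P q ∨ P q⁻¹)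
    (one : ¬ P 1) (mul : ∀ a b, P a → P b → P (a * b))
    (conj : ∀ a b, P a → P (b⁻¹ * a * b)) (arch : ∀ a b, P a → ∃ k : ℕ, P (b⁻¹ * a ^ k)) :
    ∀ a b : Q, a * b = b * a := by
  classical
  have asymm : ∀ q, P q → ¬ P q⁻¹ := by
    intro q h1 h2
    have := mul _ _ h1 h2
    rw [mul_inv_cancel] at this
    exact one this
  let inst : LinearOrder Q :=
    { le := fun a b => a = b ∨ P (a⁻¹ * b)
      lt := fun a b => P (a⁻¹ * b)
      le_refl := fun a => Or.inl rfl
      le_trans := by
        rintro a b c (rfl | h1) (rfl | h2)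
        · exact Or.inl rfl
        · exact Or.inr h2
        · exact Or.inr h1
        · right
          have := mul _ _ h1 h2
          have e : a⁻¹ * b * (b⁻¹ * c) = a⁻¹ * c := by group
          rwa [e] at this
      le_antisymm := by
        rintro a b (rfl | h1) (h | h2)
        · rfl
        · rfl
        · exact h.symm
        · exfalso
          have e : b⁻¹ * a = (a⁻¹ * b)⁻¹ := by group
          rw [e] at h2
          exact asymm _ h1 h2
      lt_iff_le_not_ge := by
        intro a b
        constructor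
        · intro h
          refine ⟨Or.inr h, ?_⟩
          rintro (rfl | h2)
          · rw [inv_mul_cancel] at h
            exact one h
          · have e : b⁻¹ * a = (a⁻¹ * b)⁻¹ := by group
            rw [e] at h2
            exact asymm _ h h2
        · rintro ⟨rfl | h, h2⟩
          · exact absurd (Or.inl rfl) h2
          · exact h
      le_total := by
        intro a b
        rcases tri (a⁻¹ * b) with h | h | h
        · left; left
          rw [inv_mul_eq_one] at h
          exact h
        · left; right; exact h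
        · right; right
          have e : (a⁻¹ * b)⁻¹ = b⁻¹ * a := by group
          rwa [e] at h
      toDecidableLE := fun a b => Classical.dec _ }
  have hlt : ∀ a b : Q, a < b ↔ P (a⁻¹ * b) := fun a b => Iff.rfl
  intro a b
  refine hoelder ?_ ?_ ?_ a b
  · intro a b c h
    rw [hlt] at h ⊢
    have e : (c * a)⁻¹ * (c * b) = a⁻¹ * b := by group
    rwa [e]
  · intro a b c h
    rw [hlt] at h ⊢
    have e : (a * c)⁻¹ * (b * c) = c⁻¹ * (a⁻¹ * b) * c := by group
    rw [e]
    exact conj _ _ h
  · intro a b h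
    rw [hlt, inv_one, one_mul] at h
    obtain ⟨k, hk⟩ := arch a b h
    exact ⟨k, (hlt _ _).2 hk⟩

/-- A nontrivial finitely generated torsion-free commutative group maps onto `ℤ`. -/
theorem exists_surj_int {Q : Type*} [Group Q] (hcomm : ∀ a b : Q, a * b = b * a)
    (hfg : Group.FG Q) (htf : ∀ (q : Q) (k : ℕ), k ≠ 0 → q ^ k = 1 → q = 1)
    (hnt : ∃ q : Q, q ≠ 1) : ∃ φ : Q →* Multiplicative ℤ, Function.Surjective φ := by
  let _ : CommGroup Q := { ‹Group Q› with mul_comm := hcomm }
  have hfg' : AddGroup.FG (Additive Q) := by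
    have := GroupFG.iff_add_fg (G := Q)
    exact this.1 hfg
  have _ : Module.Finite ℤ (Additive Q) := Module.Finite.iff_addGroup_fg.2 hfg'
  have _ : IsMulTorsionFree Q := by
    refine ⟨fun n hn a b hab => ?_⟩
    have h1 : (a * b⁻¹) ^ n = 1 := by
      have hab' : a ^ n = b ^ n := hab
      rw [mul_pow, inv_pow, hab', mul_inv_cancel]
    have := htf _ n hn h1
    rwa [mul_inv_eq_one] at this
  have _ : Module.Free ℤ (Additive Q) := inferInstance
  obtain ⟨q, hq⟩ := hnt
  have _ : Nontrivial (Additive Q) := ⟨⟨Additive.ofMul q, 0, fun h => hq h⟩⟩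
  let b := Module.Free.chooseBasis ℤ (Additive Q)
  obtain ⟨i⟩ : Nonempty (Module.Free.ChooseBasisIndex ℤ (Additive Q)) := b.index_nonempty
  let f : Additive Q →+ ℤ := (b.coord i).toAddMonoidHom
  let φ : Q →* Multiplicative ℤ :=
    { toFun := fun q => Multiplicative.ofAdd (f (Additive.ofMul q))
      map_one' := by
        change Multiplicative.ofAdd (f 0) = 1
        rw [map_zero]
        rfl
      map_mul' := by
        intro x y
        change Multiplicative.ofAdd (f (Additive.ofMul x + Additive.ofMul y)) = _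
        rw [map_add]
        rfl }
  refine ⟨φ, ?_⟩
  intro z
  refine ⟨Additive.toMul ((Multiplicative.toAdd z) • b i), ?_⟩
  have h1 : f ((Multiplicative.toAdd z) • b i) = Multiplicative.toAdd z := by
    change b.coord i ((Multiplicative.toAdd z) • b i) = _
    rw [map_smul]
    simp
  change Multiplicative.ofAdd (f ((Multiplicative.toAdd z) • b i)) = z
  rw [h1]
  rfl

end Pool.Agent.Lib.MP_7ac902_al
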