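import Mathlib
import Pool.Agent.Lib.MP_7ac902_al.Dynamics
import Pool.Agent.Lib.MP_7ac902_al.Hoelder

/-!
# Right-orderable Engel groups are locally indicable
-/

namespace Pool.Agent.Lib.MP_7ac902_al

section
variable {G : Type*} [Group G] {X : Type*} [CompleteLinearOrder X] [MulAction G X]
variable (hm : OrdAct G X) {m : ℕ} (hlaw : Law G m) {l r : X}
  (hl : ∀ g : G, g • l = l) (hr : ∀ g : G, g • r = r)
include hm hl hr

theorem mem_Ioo (g : G) {t : X} (h1 : l < t) (h2 : t < r) : l < g • t ∧ g • t < r := by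
  constructor
  · rw [← hl g, lt_iff hm]; exact h1
  · rw [← hr g, lt_iff hm]; exact h2

variable (hno : ∀ t, l < t → t < r → ∃ g : G, g • t ≠ t)
include hlaw hno

/-- Fixed points of an element having one in `(l, r)` are cofinal. -/
theorem cofinal_group (w : G) (hex : ∃ e, l < e ∧ e < r ∧ w • e = e) :
    (∀ t, t < r → ∃ s, t < s ∧ l < s ∧ s < r ∧ w • s = s) ∧
    (∀ t, l < t → ∃ s, s < t ∧ l < s ∧ s < r ∧ w • s = s) := by
  obtain ⟨e, he1, he2, he⟩ := hex
  constructor
  · set S : Set X := {s | l < s ∧ s < r ∧ w • s = s} with hS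
    have hfix : w • sSup S = sSup S := sSup_fixed hm w S (fun s hs => hs.2.2)
    have hle : sSup S ≤ r := sSup_le (fun s hs => hs.2.1.le)
    have hge : e ≤ sSup S := le_sSup ⟨he1, he2, he⟩
    have heq : sSup S = r := by
      by_contra hne
      have hlt : sSup S < r := lt_of_le_of_ne hle hne
      have hj1 : l < sSup S := lt_of_lt_of_le he1 hge
      obtain ⟨g, hg⟩ := hno _ hj1 hlt
      refine hg (cof_right hm hlaw g w hfix (hr g) (hr w) hlt ?_)
      intro s hs1 hs2 hs
      exact absurd (le_sSup (show s ∈ S from ⟨hj1.trans hs1, hs2, hs⟩)) (not_le.2 hs1)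
    intro t ht
    rw [← heq, lt_sSup_iff] at ht
    obtain ⟨s, hs, hts⟩ := ht
    exact ⟨s, hts, hs.1, hs.2.1, hs.2.2⟩
  · set S : Set X := {s | l < s ∧ s < r ∧ w • s = s} with hS
    have hfix : w • sInf S = sInf S := sInf_fixed hm w S (fun s hs => hs.2.2)
    have hle : l ≤ sInf S := le_sInf (fun s hs => hs.1.le)
    have hge : sInf S ≤ e := sInf_le ⟨he1, he2, he⟩
    have heq : sInf S = l := by
      by_contra hne
      have hlt : l < sInf S := lt_of_le_of_ne hle (Ne.symm hne)
      have hj1 : sInf S < r := lt_of_le_of_lt hge he2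
      obtain ⟨g, hg⟩ := hno _ hlt hj1
      refine hg (cof_left hm hlaw g w hfix (hl g) (hl w) hlt ?_)
      intro s hs1 hs2 hs
      exact absurd (sInf_le (show s ∈ S from ⟨hs1, hs2.trans hj1, hs⟩)) (not_le.2 hs2)
    intro t ht
    rw [← heq, sInf_lt_iff] at ht
    obtain ⟨s, hs, hts⟩ := ht
    exact ⟨s, hts, hs.1, hs.2.1, hs.2.2⟩

/-- Finitely many elements, each with a fixed point in `(l, r)`, have a common fixed point. -/
theorem finite_common (hlr : ∃ o, l < o ∧ o < r) (S : Finset G)
    (hS : ∀ s ∈ S, ∃ e, l < e ∧ e < r ∧ s • e = e) :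
    ∃ p, l < p ∧ p < r ∧ ∀ s ∈ S, s • p = p := by
  classical
  induction S using Finset.induction_on with
  | empty =>
    obtain ⟨o, h1, h2⟩ := hlr
    exact ⟨o, h1, h2, by simp⟩
  | insert g S hg ih =>
    obtain ⟨p, hp1, hp2, hp⟩ := ih (fun s hs => hS s (Finset.mem_insert_of_mem hs))
    by_cases hgp : g • p = p
    · refine ⟨p, hp1, hp2, ?_⟩
      intro s hs
      rcases Finset.mem_insert.1 hs with rfl | hs
      · exact hgp
      · exact hp s hs
    · obtain ⟨-, cg⟩ := cofinal_group hm hlaw hl hr hno g (hS g (Finset.mem_insert_self _ _))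
      set l' := sSup {t | t < p ∧ g • t = t} with hl'
      have hl'fix : g • l' = l' := sSup_fixed hm g _ (fun s hs => hs.2)
      have hl'le : l' ≤ p := sSup_le (fun s hs => hs.1.le)
      have hl'lt : l' < p := lt_of_le_of_ne hl'le (fun h => hgp (h ▸ hl'fix))
      have hll' : l < l' := by
        obtain ⟨s, h1, h2, h3, h4⟩ := cg p hp1
        exact lt_of_lt_of_le h2 (le_sSup ⟨h1, h4⟩)
      refine ⟨l', hll', hl'lt.trans hp2, ?_⟩
      intro s hs
      rcases Finset.mem_insert.1 hs with rfl | hs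
      · exact hl'fix
      · have hsp := hp s hs
        set j₁ := sSup {t | t < p ∧ g • t = t ∧ s • t = t} with hj₁
        set j₂ := sInf {t | p < t ∧ g • t = t ∧ s • t = t} with hj₂
        have h1g : g • j₁ = j₁ := sSup_fixed hm g _ (fun s hs => hs.2.1)
        have h1s : s • j₁ = j₁ := sSup_fixed hm s _ (fun s hs => hs.2.2)
        have h2g : g • j₂ = j₂ := sInf_fixed hm g _ (fun s hs => hs.2.1)
        have h2s : s • j₂ = j₂ := sInf_fixed hm s _ (fun s hs => hs.2.2)
        have hj1p : j₁ < p :=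
          lt_of_le_of_ne (sSup_le (fun s hs => hs.1.le)) (fun h => hgp (h ▸ h1g))
        have hj2p : p < j₂ :=
          lt_of_le_of_ne (le_sInf (fun s hs => hs.1.le)) (fun h => hgp (h ▸ h2g))
        have hle1 : j₁ ≤ l' := le_sSup ⟨hj1p, h1g⟩
        have hle2 : l' ≤ j₁ := by
          by_contra hcon
          rw [not_le] at hcon
          obtain ⟨e, he1, he2, he3, he4⟩ := common_fixed hm hlaw g s h1g h2g h1s h2s
            ⟨l', hcon, hl'lt.trans hj2p, hl'fix⟩ ⟨p, hj1p, hj2p, hsp⟩
          rcases lt_trichotomy e p with h | h | h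
          · exact absurd (le_sSup (show e ∈ {t | t < p ∧ g • t = t ∧ s • t = t} from
              ⟨h, he3, he4⟩)) (not_le.2 he1)
          · exact hgp (h ▸ he3)
          · exact absurd (sInf_le (show e ∈ {t | p < t ∧ g • t = t ∧ s • t = t} from
              ⟨h, he3, he4⟩)) (not_le.2 he2)
        have : l' = j₁ := le_antisymm hle2 hle1
        rw [this]
        exact h1s

/-- The normal subgroup of elements with a fixed point in `(l, r)`. -/
def fixSub (hlr : ∃ o, l < o ∧ o < r) : Subgroup G where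
  carrier := {g | ∃ p, l < p ∧ p < r ∧ g • p = p}
  mul_mem' := by
    intro g h hg hh
    obtain ⟨e, he1, he2, he3, he4⟩ := common_fixed hm hlaw g h (hl g) (hr g) (hl h) (hr h) hg hh
    exact ⟨e, he1, he2, by rw [mul_smul, he4, he3]⟩
  one_mem' := by
    obtain ⟨o, h1, h2⟩ := hlr
    exact ⟨o, h1, h2, one_smul _ _⟩
  inv_mem' := by
    rintro g ⟨p, h1, h2, h3⟩
    exact ⟨p, h1, h2, inv_fix.2 h3⟩

omit hno in
theorem mem_fixSub (hlr : ∃ o, l < o ∧ o < r) (g : G) :
    g ∈ fixSub hm hlaw hl hr hlr ↔ ∃ p, l < p ∧ p < r ∧ g • p = p := Iff.rfl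

omit hno in
theorem fixSub_normal (hlr : ∃ o, l < o ∧ o < r) : (fixSub hm hlaw hl hr hlr).Normal := by
  constructor
  rintro n ⟨p, h1, h2, h3⟩ g
  obtain ⟨h4, h5⟩ := mem_Ioo hm hl hr g h1 h2
  refine ⟨g • p, h4, h5, ?_⟩
  rw [mul_smul, mul_smul, inv_smul_smul, h3]

/-- The quotient of a finitely generated group maps onto `ℤ`. -/
theorem exists_hom_aux (hfg : Group.FG G) (hlr : ∃ o, l < o ∧ o < r) :
    ∃ φ : G →* Multiplicative ℤ, Function.Surjective φ := by
  set N := fixSub hm hlaw hl hr hlr with hN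
  have hmem : ∀ g : G, g ∈ N ↔ ∃ p, l < p ∧ p < r ∧ g • p = p := fun g => Iff.rfl
  have hnormal : N.Normal := fixSub_normal hm hlaw hl hr hlr
  have hne : ∃ g : G, g ∉ N := by
    by_contra hcon
    push Not at hcon
    obtain ⟨S, hS⟩ := hfg.out
    obtain ⟨p, hp1, hp2, hp⟩ := finite_common hm hlaw hl hr hno hlr S
      (fun s _ => (hmem s).1 (hcon s))
    obtain ⟨g, hg⟩ := hno p hp1 hp2
    apply hg
    have hgS : g ∈ Subgroup.closure (S : Set G) := by rw [hS]; trivial
    have hle : Subgroup.closure (S : Set G) ≤ MulAction.stabilizer G p := by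
      rw [Subgroup.closure_le]
      intro s hs
      exact hp s hs
    exact hle hgS
  let Pos : G → Prop := fun g => ∀ t, l < t → t < r → t < g • t
  have pos_or : ∀ g, g ∉ N → Pos g ∨ Pos g⁻¹ := by
    intro g hg
    apply sign_const hm g
    intro t h1 h2 h3
    exact hg ⟨t, h1, h2, h3⟩
  have pos_not_mem : ∀ g, Pos g → g ∉ N := by
    rintro g hg ⟨p, h1, h2, h3⟩
    have := hg p h1 h2
    rw [h3] at this
    exact lt_irrefl _ this
  have pos_mul : ∀ g h, Pos g → Pos h → Pos (g * h) := by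
    intro g h hg hh t h1 h2
    obtain ⟨h3, h4⟩ := mem_Ioo hm hl hr h h1 h2
    rw [mul_smul]
    exact (hh t h1 h2).trans (hg _ h3 h4)
  have pos_contra : ∀ c, Pos c⁻¹ → ∀ t, l < t → t < r → ¬ (t < c • t) := by
    intro c hc t h1 h2 h3
    obtain ⟨h4, h5⟩ := mem_Ioo hm hl hr c h1 h2
    have := hc _ h4 h5
    rw [inv_smul_smul] at this
    exact lt_asymm this h3
  have pos_mul_mem : ∀ g n, Pos g → n ∈ N → Pos (g * n) := by
    intro g n hg hn
    have h1 : g * n ∉ N := by
      intro h
      have := N.mul_mem h (N.inv_mem hn)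
      rw [mul_inv_cancel_right] at this
      exact pos_not_mem g hg this
    rcases pos_or _ h1 with h | h
    · exact h
    · exfalso
      obtain ⟨p, hp1, hp2, hp3⟩ := hn
      refine pos_contra _ h p hp1 hp2 ?_
      rw [mul_smul, hp3]
      exact hg p hp1 hp2
  have pos_conj : ∀ a b, Pos a → Pos (b⁻¹ * a * b) := by
    intro a b ha t h1 h2
    obtain ⟨h3, h4⟩ := mem_Ioo hm hl hr b h1 h2
    have := ha _ h3 h4
    rw [mul_smul, mul_smul, lt_inv_iff hm]
    exact this
  have pos_pow : ∀ g, Pos g → ∀ k : ℕ, k ≠ 0 → Pos (g ^ k) := by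
    intro g hg k hk
    induction k with
    | zero => exact absurd rfl hk
    | succ k ih =>
      rcases Nat.eq_zero_or_pos k with h | h
      · subst h
        simpa using hg
      · rw [pow_succ]
        exact pos_mul _ _ (ih (by omega)) hg
  obtain ⟨o, ho1, ho2⟩ := hlr
  have pos_arch : ∀ a b, Pos a → ∃ k : ℕ, Pos (b⁻¹ * a ^ k) := by
    intro a b ha
    have h1 := ha o ho1 ho2
    have hfix := iSup_orbit hm a o h1.le
    have hge : r ≤ ⨆ k : ℕ, a ^ k • o := by
      by_contra hcon
      rw [not_le] at hcon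
      have h2 : l < ⨆ k : ℕ, a ^ k • o := by
        refine lt_of_lt_of_le ho1 ?_
        simpa using le_iSup (fun k : ℕ => a ^ k • o) 0
      have := ha _ h2 hcon
      rw [hfix] at this
      exact lt_irrefl _ this
    obtain ⟨-, h3⟩ := mem_Ioo hm hl hr b ho1 ho2
    have h4 := lt_of_lt_of_le h3 hge
    rw [lt_iSup_iff] at h4
    obtain ⟨k, hk⟩ := h4
    by_cases hc : b⁻¹ * a ^ k ∈ N
    · refine ⟨k + 1, ?_⟩
      have e : b⁻¹ * a ^ (k + 1) = a * (a⁻¹ * (b⁻¹ * a ^ k) * a) := by
        rw [pow_succ]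
        group
      rw [e]
      apply pos_mul_mem _ _ ha
      have := hnormal.conj_mem _ hc a⁻¹
      rwa [inv_inv] at this
    · refine ⟨k, ?_⟩
      rcases pos_or _ hc with h | h
      · exact h
      · exfalso
        refine pos_contra _ h o ho1 ho2 ?_
        rw [mul_smul, lt_inv_iff hm]
        exact hk
  -- the quotient
  let P : G ⧸ N → Prop := fun q => ∃ g : G, (g : G ⧸ N) = q ∧ Pos g
  have hP : ∀ g : G, P (g : G ⧸ N) ↔ Pos g := by
    intro g
    constructor
    · rintro ⟨g', h1, h2⟩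
      rw [QuotientGroup.eq] at h1
      have := pos_mul_mem _ _ h2 h1
      rwa [mul_inv_cancel_left] at this
    · intro h
      exact ⟨g, rfl, h⟩
  have hcomm : ∀ a b : G ⧸ N, a * b = b * a := by
    apply hoelder_cone P
    · intro q
      obtain ⟨g, rfl⟩ := QuotientGroup.mk_surjective q
      by_cases hg : g ∈ N
      · left
        exact (QuotientGroup.eq_one_iff g).2 hg
      · right
        rcases pos_or g hg with h | h
        · left; exact (hP g).2 h
        · right
          rw [← QuotientGroup.mk_inv]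
          exact (hP g⁻¹).2 h
    · intro h
      rw [← QuotientGroup.mk_one, hP] at h
      exact pos_not_mem _ h N.one_mem
    · intro a b ha hb
      obtain ⟨a, rfl⟩ := QuotientGroup.mk_surjective a
      obtain ⟨b, rfl⟩ := QuotientGroup.mk_surjective b
      rw [hP] at ha hb
      rw [← QuotientGroup.mk_mul, hP]
      exact pos_mul _ _ ha hb
    · intro a b ha
      obtain ⟨a, rfl⟩ := QuotientGroup.mk_surjective a
      obtain ⟨b, rfl⟩ := QuotientGroup.mk_surjective b
      rw [hP] at ha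
      rw [← QuotientGroup.mk_inv, ← QuotientGroup.mk_mul, ← QuotientGroup.mk_mul, hP]
      exact pos_conj _ _ ha
    · intro a b ha
      obtain ⟨a, rfl⟩ := QuotientGroup.mk_surjective a
      obtain ⟨b, rfl⟩ := QuotientGroup.mk_surjective b
      rw [hP] at ha
      obtain ⟨k, hk⟩ := pos_arch a b ha
      refine ⟨k, ?_⟩
      rw [← QuotientGroup.mk_inv, ← QuotientGroup.mk_pow, ← QuotientGroup.mk_mul, hP]
      exact hk
  have hfgQ : Group.FG (G ⧸ N) := QuotientGroup.fg N
  obtain ⟨φ, hφ⟩ := exists_surj_int hcomm hfgQ (by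
    intro q k hk hq
    obtain ⟨g, rfl⟩ := QuotientGroup.mk_surjective q
    by_contra hne1
    have hg : g ∉ N := fun h => hne1 ((QuotientGroup.eq_one_iff g).2 h)
    rw [← QuotientGroup.mk_pow, QuotientGroup.eq_one_iff] at hq
    rcases pos_or g hg with h | h
    · exact pos_not_mem _ (pos_pow g h k hk) hq
    · refine pos_not_mem _ (pos_pow g⁻¹ h k hk) ?_
      rw [inv_pow]
      exact N.inv_mem hq) (by
    obtain ⟨g, hg⟩ := hne
    exact ⟨g, fun h => hg ((QuotientGroup.eq_one_iff g).1 h)⟩)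
  exact ⟨φ.comp (QuotientGroup.mk' N), hφ.comp (QuotientGroup.mk'_surjective N)⟩

end

/-- A finitely generated group with the Engel-type law acting on a complete linear order by
automorphisms, not fixing some point, maps onto `ℤ`. -/
theorem exists_hom_of_action {G : Type*} [Group G] {X : Type*} [CompleteLinearOrder X]
    [MulAction G X] (hm : OrdAct G X) {m : ℕ} (hlaw : Law G m) (hfg : Group.FG G) (o : X)
    (ho : ∃ g : G, g • o ≠ o) : ∃ φ : G →* Multiplicative ℤ, Function.Surjective φ := by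
  obtain ⟨g₀, hg₀⟩ := ho
  set l := sSup {t : X | t < o ∧ ∀ g : G, g • t = t} with hl
  set r := sInf {t : X | o < t ∧ ∀ g : G, g • t = t} with hr
  have hlf : ∀ g : G, g • l = l := fun g => sSup_fixed hm g _ (fun s hs => hs.2 g)
  have hrf : ∀ g : G, g • r = r := fun g => sInf_fixed hm g _ (fun s hs => hs.2 g)
  have hlo : l < o := lt_of_le_of_ne (sSup_le (fun s hs => hs.1.le)) (fun h => hg₀ (h ▸ hlf g₀))
  have hor : o < r := lt_of_le_of_ne (le_sInf (fun s hs => hs.1.le)) (fun h => hg₀ (h ▸ hrf g₀))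
  refine exists_hom_aux hm hlaw hlf hrf ?_ hfg ⟨o, hlo, hor⟩
  intro t h1 h2
  by_contra hcon
  push Not at hcon
  rcases lt_trichotomy t o with h | h | h
  · exact absurd (le_sSup (show t ∈ {t : X | t < o ∧ ∀ g : G, g • t = t} from ⟨h, hcon⟩))
      (not_le.2 h1)
  · exact hg₀ (h ▸ hcon g₀)
  · exact absurd (sInf_le (show t ∈ {t : X | o < t ∧ ∀ g : G, g • t = t} from ⟨h, hcon⟩))
      (not_le.2 h2)

/-- Right-orderable Engel groups are locally indicable. -/
theorem exists_hom_of_rightOrder {G : Type*} [Group G] [lo : LinearOrder G]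
    (hlo : ∀ a b c : G, a ≤ b → a * c ≤ b * c) {n : ℕ}
    (hE : ∀ x y : G, (fun z : G => z⁻¹ * y⁻¹ * z * y)^[n] x = 1) (hfg : Group.FG G)
    (hnt : ∃ g : G, g ≠ 1) : ∃ φ : G →* Multiplicative ℤ, Function.Surjective φ := by
  let act : MulAction G (LowerSet G) :=
    { smul := fun g L => ⟨{x | x * g ∈ L}, fun a b hba ha => L.lower (hlo _ _ g hba) ha⟩
      one_smul := by
        intro L
        apply SetLike.ext
        intro x
        change x * 1 ∈ L ↔ x ∈ L
        rw [mul_one]
      mul_smul := by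
        intro g h L
        apply SetLike.ext
        intro x
        change x * (g * h) ∈ L ↔ (x * g) * h ∈ L
        rw [mul_assoc] }
  have hmem : ∀ (g : G) (L : LowerSet G) (x : G), x ∈ g • L ↔ x * g ∈ L := fun g L x => Iff.rfl
  have hm : OrdAct G (LowerSet G) := by
    intro g s t hst
    rw [lt_iff_le_not_ge] at hst ⊢
    obtain ⟨h1, h2⟩ := hst
    constructor
    · intro x hx
      exact h1 hx
    · intro h3
      apply h2
      intro x hx
      have h4 : x * g⁻¹ ∈ g • t := by
        rw [hmem, inv_mul_cancel_right]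
        exact hx
      have h5 : x * g⁻¹ ∈ g • s := h3 h4
      rw [hmem, inv_mul_cancel_right] at h5
      exact h5
  refine exists_hom_of_action hm (law_of_engel hE) hfg (LowerSet.Iic 1) ?_
  obtain ⟨g, hg⟩ := hnt
  -- both `g` and `g⁻¹` cannot fix the principal cut unless `g = 1`
  by_contra hcon
  push Not at hcon
  have h1 : (1 : G) ∈ g • LowerSet.Iic (1 : G) := by
    rw [hcon g]
    exact le_refl (1 : G)
  have h2 : (1 : G) ∈ g⁻¹ • LowerSet.Iic (1 : G) := by
    rw [hcon g⁻¹]
    exact le_refl (1 : G)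
  rw [hmem, one_mul] at h1 h2
  have h1' : g ≤ 1 := h1
  have h2' : g⁻¹ ≤ 1 := h2
  have h3 := hlo _ _ g h2'
  rw [inv_mul_cancel, one_mul] at h3
  exact hg (le_antisymm h1' h3)

end Pool.Agent.Lib.MP_7ac902_al
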